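import Pool.Agent.Helper20.QP.St2

set_option autoImplicit false

open Filter Topology Matrix Set Metric MeasureTheory
open scoped ComplexConjugate ENNReal

namespace Pool.Agent.Helper9.QP

open Pool.Agent.Helper35.PM Pool.Agent.Helper20.QD Pool.Agent.Helper20.QP

/-- radii -/
private noncomputable def rr (n : ℕ) : ℝ := 1 - (1 / 2 : ℝ) ^ n

private noncomputable def sc (n : ℕ) : ℝ := rr n / rr (n + 1)

/-- the section, built radius by radius -/
private noncomputable def PP {G : Type} [Group G] (g : ℂ → ℂ → G) : ℕ → ℂ → G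
  | 0, _ => 1
  | n + 1, x => PP g n ((sc n : ℂ) * x) * g ((sc n : ℂ) * x) x

private theorem rr_nonneg (n : ℕ) : 0 ≤ rr n := by
  unfold rr
  have : (1 / 2 : ℝ) ^ n ≤ 1 := pow_le_one₀ (by norm_num) (by norm_num)
  linarith

private theorem rr_succ_pos (n : ℕ) : 0 < rr (n + 1) := by
  unfold rr
  have : (1 / 2 : ℝ) ^ n ≤ 1 := pow_le_one₀ (by norm_num) (by norm_num)
  rw [pow_succ]
  linarith

private theorem rr_step (n : ℕ) : rr (n + 1) - rr n = (1 / 2 : ℝ) ^ (n + 1) := by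
  unfold rr
  rw [pow_succ]
  ring

private theorem sc_nonneg (n : ℕ) : 0 ≤ sc n := div_nonneg (rr_nonneg n) (rr_succ_pos n).le

private theorem sc_le (n : ℕ) : sc n ≤ 1 := by
  unfold sc
  rw [div_le_one (rr_succ_pos n)]
  have h := rr_step n
  have : (0 : ℝ) < (1 / 2 : ℝ) ^ (n + 1) := by positivity
  linarith

private theorem rr_lt (n : ℕ) : rr n < 1 := by
  unfold rr
  have : (0 : ℝ) < (1 / 2 : ℝ) ^ n := by positivity
  linarith

private theorem rr_mono (n : ℕ) : rr n ≤ rr (n + 1) := by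
  have h := rr_step n
  have : (0 : ℝ) < (1 / 2 : ℝ) ^ (n + 1) := by positivity
  linarith

private theorem norm_sc (n : ℕ) (x : ℂ) : ‖(sc n : ℂ) * x‖ = sc n * ‖x‖ := by
  rw [norm_mul, Complex.norm_real, Real.norm_of_nonneg (sc_nonneg n)]

private theorem sc_mem (n : ℕ) (x : ℂ) (hx : ‖x‖ ≤ rr (n + 1)) : ‖(sc n : ℂ) * x‖ ≤ rr n := by
  rw [norm_sc]
  calc sc n * ‖x‖ ≤ sc n * rr (n + 1) := mul_le_mul_of_nonneg_left hx (sc_nonneg n)
    _ = rr n := by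
      unfold sc
      exact div_mul_cancel₀ _ (rr_succ_pos n).ne'

private theorem dl_sc (n : ℕ) (x : ℂ) (hx : ‖x‖ ≤ rr (n + 1)) : dl ((sc n : ℂ) * x) x ≤ 1 := by
  set δ : ℝ := (1 / 2 : ℝ) ^ (n + 1) with hδ
  have hδ0 : 0 < δ := by positivity
  have hr : rr (n + 1) = 1 - δ := rfl
  have h1 : ‖(sc n : ℂ) * x - x‖ ≤ δ := by
    have e : (sc n : ℂ) * x - x = -(((1 - sc n : ℝ) : ℂ) * x) := by
      push_cast
      ring
    rw [e, norm_neg, norm_mul, Complex.norm_real, Real.norm_of_nonneg (by linarith [sc_le n])]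
    calc (1 - sc n) * ‖x‖ ≤ (1 - sc n) * rr (n + 1) :=
          mul_le_mul_of_nonneg_left hx (by linarith [sc_le n])
      _ = rr (n + 1) - rr n := by
          unfold sc
          rw [sub_mul, div_mul_cancel₀ _ (rr_succ_pos n).ne', one_mul]
      _ = δ := rr_step n
  have key : ∀ z : ℂ, ‖z‖ ≤ rr (n + 1) → δ ≤ 1 - ‖z‖ ^ 2 := by
    intro z hz
    rw [hr] at hz
    have h0 := norm_nonneg z
    nlinarith
  have h2 : δ ≤ 1 - ‖x‖ ^ 2 := key x hx
  have h3 : δ ≤ 1 - ‖(sc n : ℂ) * x‖ ^ 2 := key _ ((sc_mem n x hx).trans (rr_mono n))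
  unfold dl
  rw [div_le_one (mul_pos (by linarith) (by linarith))]
  calc ‖(sc n : ℂ) * x - x‖ ^ 2 ≤ δ ^ 2 := by
        have := norm_nonneg ((sc n : ℂ) * x - x)
        nlinarith
    _ = δ * δ := by ring
    _ ≤ (1 - ‖(sc n : ℂ) * x‖ ^ 2) * (1 - ‖x‖ ^ 2) :=
        mul_le_mul h3 h2 hδ0.le (by linarith)

private theorem mem_D {n : ℕ} {x : ℂ} (hx : ‖x‖ ≤ rr n) : x ∈ D := by
  rw [mem_ball_zero_iff]
  exact lt_of_le_of_lt hx (rr_lt n)

private theorem arsinh_one_le : Real.arsinh 1 ≤ 1 := by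
  have h : (1 : ℝ) ≤ Real.sinh 1 := Real.self_le_sinh_iff.mpr (by norm_num)
  calc Real.arsinh 1 ≤ Real.arsinh (Real.sinh 1) := Real.arsinh_le_arsinh.mpr h
    _ = 1 := Real.arsinh_sinh 1

private theorem hd_le_two {z w : ℂ} (h : dl z w ≤ 1) : hd z w ≤ 2 := by
  unfold hd
  have h1 : Real.sqrt (dl z w) ≤ 1 := by
    rw [Real.sqrt_le_one]
    exact h
  have h2 : Real.arsinh (Real.sqrt (dl z w)) ≤ 1 :=
    (Real.arsinh_le_arsinh.mpr h1).trans arsinh_one_le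
  linarith

/-- a partial cocycle on the disc has a section -/
private theorem section_exists (hMET : StMET) {G : Type} [Group G] (g : ℂ → ℂ → G)
    (h1 : ∀ x ∈ D, g x x = 1)
    (h2 : ∀ x ∈ D, ∀ y ∈ D, ∀ z ∈ D, hd x y ≤ 4 → hd y z ≤ 4 → hd x z ≤ 4 →
      g x y * g y z = g x z) :
    ∃ Φ : ℂ → G, Φ 0 = 1 ∧ ∀ x ∈ D, ∀ y ∈ D, dl x y ≤ 1 → Φ y = Φ x * g x y := by
  classical
  obtain ⟨-, m2, -, m4, -, -, -⟩ := hMET
  have hA : ∀ n : ℕ, ∀ x y : ℂ, ‖x‖ ≤ rr n → ‖y‖ ≤ rr n → dl x y ≤ 1 →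
      PP g n y = PP g n x * g x y := by
    intro n
    induction n with
    | zero =>
      intro x y hx hy _
      have hx0 : x = 0 := by
        have : rr 0 = 0 := by unfold rr; norm_num
        rw [this] at hx
        exact norm_le_zero_iff.mp hx
      have hy0 : y = 0 := by
        have : rr 0 = 0 := by unfold rr; norm_num
        rw [this] at hy
        exact norm_le_zero_iff.mp hy
      rw [hx0, hy0, h1 0 (mem_ball_self one_pos), mul_one]
    | succ n ih =>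
      intro x y hx hy hxy
      have hxD : x ∈ D := mem_D hx
      have hyD : y ∈ D := mem_D hy
      set x' : ℂ := (sc n : ℂ) * x with hx'
      set y' : ℂ := (sc n : ℂ) * y with hy'
      have hx'n : ‖x'‖ ≤ rr n := sc_mem n x hx
      have hy'n : ‖y'‖ ≤ rr n := sc_mem n y hy
      have hx'D : x' ∈ D := mem_D hx'n
      have hy'D : y' ∈ D := mem_D hy'n
      have hd' : dl x' y' ≤ 1 := (m4 x y (sc n) hxD hyD (sc_nonneg n) (sc_le n)).trans hxy
      have hih := ih x' y' hx'n hy'n hd'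
      have e1 : PP g (n + 1) y = PP g n y' * g y' y := rfl
      have e2 : PP g (n + 1) x = PP g n x' * g x' x := rfl
      have d1 : hd x y ≤ 2 := hd_le_two hxy
      have d2 : hd x' y' ≤ 2 := hd_le_two hd'
      have d3 : hd x' x ≤ 2 := hd_le_two (dl_sc n x hx)
      have d4 : hd y' y ≤ 2 := hd_le_two (dl_sc n y hy)
      have d5 : hd x' y ≤ 4 := by
        have := (m2 x' y x hx'D hyD hxD).2.2.2.2.2
        linarith
      have c1 := h2 x' hx'D y' hy'D y hyD (by linarith) (by linarith) d5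
      have c2 := h2 x' hx'D x hxD y hyD (by linarith) (by linarith) d5
      rw [e1, e2, hih, mul_assoc, c1, mul_assoc, c2]
  have hB : ∀ n : ℕ, ∀ x : ℂ, ‖x‖ ≤ rr n → PP g (n + 1) x = PP g n x := by
    intro n x hx
    have hx1 : ‖x‖ ≤ rr (n + 1) := hx.trans (rr_mono n)
    have hle : ‖(sc n : ℂ) * x‖ ≤ rr n := sc_mem n x hx1
    have := hA n ((sc n : ℂ) * x) x hle hx (dl_sc n x hx1)
    exact this.symm
  have hmono : ∀ n m : ℕ, n ≤ m → rr n ≤ rr m := by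
    intro n m hnm
    exact monotone_nat_of_le_succ rr_mono hnm
  have hB' : ∀ n m : ℕ, n ≤ m → ∀ x : ℂ, ‖x‖ ≤ rr n → PP g m x = PP g n x := by
    intro n m hnm x hx
    induction m, hnm using Nat.le_induction with
    | base => rfl
    | succ m hm ih =>
      rw [hB m x (hx.trans (hmono n m hm)), ih]
  have hex : ∀ x ∈ D, ∃ n, ‖x‖ ≤ rr n := by
    intro x hx
    rw [mem_ball_zero_iff] at hx
    obtain ⟨n, hn⟩ := exists_pow_lt_of_lt_one (show (0 : ℝ) < 1 - ‖x‖ by linarith)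
      (show (1 / 2 : ℝ) < 1 by norm_num)
    refine ⟨n, ?_⟩
    unfold rr
    linarith
  choose! N hN using hex
  refine ⟨fun x => PP g (N x) x, ?_, ?_⟩
  · have h0 : ‖(0 : ℂ)‖ ≤ rr 0 := by
      unfold rr
      simp
    have := hB' 0 (N 0) (Nat.zero_le _) 0 h0
    exact this
  · intro x hx y hy hxy
    have hxN := hN x hx
    have hyN := hN y hy
    set m := max (N x) (N y) with hm
    have h3 := hB' (N x) m (le_max_left _ _) x hxN
    have h4 := hB' (N y) m (le_max_right _ _) y hyN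
    have h5 := hA m x y (hxN.trans (hmono _ _ (le_max_left _ _)))
      (hyN.trans (hmono _ _ (le_max_right _ _))) hxy
    show PP g (N y) y = PP g (N x) x * g x y
    rw [← h3, ← h4, h5]

theorem hMCA (hSUB : StSUB) (hMET : StMET) : StMCA := by
  intro b hb
  set h : ℝ := 2 * Real.arsinh (Real.sqrt b) with hh
  have hh0 : 0 ≤ h := by
    rw [hh]
    have := Real.arsinh_nonneg_iff.mpr (Real.sqrt_nonneg b)
    linarith
  refine ⟨2 + 4 * Real.sinh ((2 * h + 4) / 2) ^ 2, ?_⟩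
  intro Γ _ σ a hF ha G _ f hf
  obtain ⟨s1, -, -, s4, -, -⟩ := hSUB
  have hMET' := hMET
  obtain ⟨m1, m2, -, m4, m5, -, -⟩ := hMET
  have hDD : ∀ z : ℂ, z ∈ D → z ∈ DD := fun z hz => ball_subset_closedBall hz
  have h0D : (0 : ℂ) ∈ D := mem_ball_self one_pos
  have hmem : ∀ (γ : Γ) (z : ℂ), z ∈ D → mob (σ γ) z ∈ D := fun γ z hz =>
    (s1 (σ γ) (hF.su γ)).2.2.1.mapsTo hz
  have hinv : ∀ (γ : Γ) (z w : ℂ), z ∈ D → w ∈ D →
      hd (mob (σ γ) z) (mob (σ γ) w) = hd z w := by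
    intro γ z w hz hw
    unfold hd
    rw [m1 (σ γ) z w (hF.su γ) hz hw]
  have hcancel : ∀ (γ : Γ) (z : ℂ), z ∈ D → mob (σ γ) (mob (σ γ⁻¹) z) = z := by
    intro γ z hz
    have := (s1 (σ γ⁻¹) (hF.su γ⁻¹)).2.2.2.2 z (hDD z hz)
    rwa [map_inv, inv_inv, ← map_inv] at this
  have hdle : ∀ z ∈ D, hd 0 (mob (σ (a z)⁻¹) z) ≤ h := by
    intro z hz
    have := ha z hz
    rw [hh]
    unfold hd
    have h1 : Real.sqrt (dl 0 (mob (σ (a z)⁻¹) z)) ≤ Real.sqrt b := Real.sqrt_le_sqrt this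
    have h2 := Real.arsinh_le_arsinh.mpr h1
    linarith
  have hball : ∀ z ∈ D, ∀ w ∈ D, hd z w ≤ 4 →
      hs (σ ((a z)⁻¹ * a w) : Mat) ≤ 2 + 4 * Real.sinh ((2 * h + 4) / 2) ^ 2 := by
    intro z hz w hw hzw
    rw [m5 _ (hF.su _)]
    have e1 : mob (σ ((a z)⁻¹ * a w)) 0 = mob (σ (a z)⁻¹) (mob (σ (a w)) 0) := by
      rw [map_mul]
      exact (s4 (σ (a z)⁻¹) (σ (a w)) 0 ((s1 (σ (a w)) (hF.su _)).2.1 0 (hDD 0 h0D))).1
    rw [e1]
    have p1 : mob (σ (a w)) 0 ∈ D := hmem _ _ h0D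
    have p2 : mob (σ (a z)⁻¹) (mob (σ (a w)) 0) ∈ D := hmem _ _ p1
    have p3 : mob (σ (a z)⁻¹) z ∈ D := hmem _ _ hz
    have p4 : mob (σ (a z)⁻¹) w ∈ D := hmem _ _ hw
    have p5 : mob (σ (a w)⁻¹) w ∈ D := hmem _ _ hw
    have t1 := (m2 0 (mob (σ (a z)⁻¹) (mob (σ (a w)) 0)) (mob (σ (a z)⁻¹) z) h0D p2 p3).2.2.2.2.2
    have t2 := (m2 (mob (σ (a z)⁻¹) z) (mob (σ (a z)⁻¹) (mob (σ (a w)) 0)) (mob (σ (a z)⁻¹) w)
      p3 p2 p4).2.2.2.2.2
    have q1 := hdle z hz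
    have q2 : hd (mob (σ (a z)⁻¹) z) (mob (σ (a z)⁻¹) w) = hd z w := hinv _ _ _ hz hw
    have q3 : hd (mob (σ (a z)⁻¹) w) (mob (σ (a z)⁻¹) (mob (σ (a w)) 0))
        = hd w (mob (σ (a w)) 0) := hinv _ _ _ hw p1
    have q4 : hd w (mob (σ (a w)) 0) ≤ h := by
      have e2 : hd w (mob (σ (a w)) 0)
          = hd (mob (σ (a w)) (mob (σ (a w)⁻¹) w)) (mob (σ (a w)) 0) := by
        rw [hcancel (a w) w hw]
      rw [e2, hinv _ _ _ p5 h0D, (m2 _ 0 0 p5 h0D h0D).2.2.1]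
      exact hdle w hw
    have t3 : hd 0 (mob (σ (a z)⁻¹) (mob (σ (a w)) 0)) ≤ 2 * h + 4 := by linarith
    have t4 := m2 0 (mob (σ (a z)⁻¹) (mob (σ (a w)) 0)) 0 h0D p2 h0D
    rw [← t4.2.1]
    have t5 : Real.sinh (hd 0 (mob (σ (a z)⁻¹) (mob (σ (a w)) 0)) / 2)
        ≤ Real.sinh ((2 * h + 4) / 2) := Real.sinh_le_sinh.mpr (by linarith)
    have t6 : 0 ≤ Real.sinh (hd 0 (mob (σ (a z)⁻¹) (mob (σ (a w)) 0)) / 2) :=
      Real.sinh_nonneg_iff.mpr (by linarith [t4.1])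
    nlinarith
  have hf1 : f 1 = 1 := by
    have hdz : ∀ z : ℂ, hd z z = 0 := by
      intro z
      unfold hd dl
      simp
    have hz : hs (σ (1 : Γ) : Mat) ≤ 2 + 4 * Real.sinh ((2 * h + 4) / 2) ^ 2 := by
      have := hball 0 h0D 0 h0D (by rw [hdz]; norm_num)
      rwa [inv_mul_cancel] at this
    have := hf 1 1 hz hz (by rwa [mul_one])
    rw [mul_one] at this
    exact (mul_eq_left.mp this.symm)
  refine section_exists hMET' (fun x y => f ((a x)⁻¹ * a y)) ?_ ?_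
  · intro x _
    show f ((a x)⁻¹ * a x) = 1
    rw [inv_mul_cancel, hf1]
  · intro x hx y hy z hz hxy hyz hxz
    show f ((a x)⁻¹ * a y) * f ((a y)⁻¹ * a z) = f ((a x)⁻¹ * a z)
    have e : (a x)⁻¹ * a y * ((a y)⁻¹ * a z) = (a x)⁻¹ * a z := by group
    have := hf ((a x)⁻¹ * a y) ((a y)⁻¹ * a z) (hball x hx y hy hxy) (hball y hy z hz hyz)
      (by rw [e]; exact hball x hx z hz hxz)
    rw [← this, e]

end Pool.Agent.Helper9.QP
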